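import Pool.Agent.H57.EQ.Targets
import Pool.Agent.H58.SF.MG

/-!
# CYC: cyclic polymorphisms of finite structures with an Olšák polymorphism
-/

set_option autoImplicit false

namespace Pool.Agent.H63.EQM

open Pool.Agent.H68.BP Pool.Agent.H58.SF Pool.Agent.H53.GC Pool.Agent.H57.EQ

variable {σ : Sig} {Y : Type}

/-- the relations -/
def RR (𝕐 : Str σ Y) (N : ℕ) (hN : ∀ l, σ.ar l ≤ N) : Fin σ.m ⊕ (Fin N × Fin N) →
    (Fin N → Y) → Prop
  | Sum.inl l, q => 𝕐 l (fun a => q (Fin.castLE (hN l) a))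
  | Sum.inr e, q => q e.1 = q e.2

theorem fam_const {𝕐 : Str σ Y} {N : ℕ} {hN : ∀ l, σ.ar l ≤ N} {I : Type} {f : (I → Y) → Y}
    (hf : IsPoly 𝕐 𝕐 f) : Fam (RR 𝕐 N hN) I (fun _ => f) := by
  rintro (l | e) p hp
  · exact hf l (fun i a => p i (Fin.castLE (hN l) a)) hp
  · change f (fun i => p i e.1) = f (fun i => p i e.2)
    exact congrArg f (funext hp)

theorem not_selects {𝕐 : Str σ Y} {N : ℕ} {hN : ∀ l, σ.ar l ≤ N} (e0 : Fin N)
    (hO : HasOlsak 𝕐 𝕐) : ¬ ∃ Z, Selects (RR 𝕐 N hN) Z := by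
  rintro ⟨Z, hZ1, hZ2⟩
  obtain ⟨o, ho, hid⟩ := hO
  have hOf : Fam (RR 𝕐 N hN) (Fin 6) (fun _ => o) := fam_const ho
  obtain ⟨i, hi⟩ := hZ1 (Fin 6) _ hOf
  have hpoly : ∀ {J : Type} (π : Fin 6 → J), IsPoly 𝕐 𝕐 (minor π o) := by
    intro J π l t ht
    exact ho l (fun i => t (π i)) (fun i => ht (π i))
  have key : ∀ r : Fin 3, minor (pat r (0 : Fin 2) 1) o = minor (pat 0 (0 : Fin 2) 1) o := by
    intro r
    funext x
    have h1 : ∀ r : Fin 3, minor (pat r (0 : Fin 2) 1) o x = o (pat r (x 0) (x 1)) := by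
      intro r
      refine congrArg o ?_
      funext a
      exact pat_map x r 0 1 a
    rw [h1, h1]
    obtain ⟨e1, e2⟩ := hid (x 0) (x 1)
    fin_cases r
    · rfl
    · exact e1.symm
    · exact (e1.trans e2).symm
  obtain ⟨j, hj⟩ := hZ1 (Fin 2) (fun _ => minor (pat 0 (0 : Fin 2) 1) o) (fam_const (hpoly _))
  have hp : ∀ r : Fin 3, pat r (0 : Fin 2) 1 i = j := by
    intro r
    refine hZ2 (Fin 6) (Fin 2) (pat r (0 : Fin 2) 1) (fun _ => o) i j hOf hi ?_
    have h2 : (fun (_ : Fin N) (x : Fin 2 → Y) => o (fun i => x (pat r (0 : Fin 2) 1 i))) =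
        fun _ => minor (pat 0 (0 : Fin 2) 1) o := by
      funext _
      exact key r
    rw [h2]
    exact hj
  have h0 : pat 0 (0 : Fin 2) 1 i = pat 1 (0 : Fin 2) 1 i := (hp 0).trans (hp 1).symm
  have h1 : pat 1 (0 : Fin 2) 1 i = pat 2 (0 : Fin 2) 1 i := (hp 1).trans (hp 2).symm
  clear hp hi
  unfold pat at h0 h1
  revert h0 h1
  fin_cases i <;> decide

theorem pf_CYC (hF : T_CYF) : T_CYC := by
  classical
  intro σ Y _ 𝕐 hO p hp hc
  rcases isEmpty_or_nonempty Y with hY | ⟨⟨y0⟩⟩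
  · have hE : IsEmpty (ZMod p → Y) := ⟨fun x => hY.elim (x 0)⟩
    refine ⟨fun x => hE.elim x, fun l x hx => ?_, fun x => hE.elim x⟩
    by_cases ha : σ.ar l = 0
    · have : IsEmpty (Fin (σ.ar l)) := by rw [ha]; infer_instance
      have e : (fun k => hE.elim (fun i => x i k) : Fin (σ.ar l) → Y) = x 0 :=
        Subsingleton.elim _ _
      have h0 := hx 0
      rw [← e] at h0
      exact h0
    · exact hY.elim (x 0 ⟨0, Nat.pos_of_ne_zero ha⟩)
  obtain ⟨N, hN⟩ : ∃ N, N = ∑ l, σ.ar l + 1 := ⟨_, rfl⟩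
  have hle : ∀ l, σ.ar l ≤ N := by
    intro l
    have := Finset.single_le_sum (f := σ.ar) (fun _ _ => Nat.zero_le _) (Finset.mem_univ l)
    omega
  have e0 : Fin N := ⟨0, by omega⟩
  obtain ⟨F, hFam, hcyc⟩ := hF (Fin N) Y (Fin σ.m ⊕ (Fin N × Fin N)) (RR 𝕐 N hle)
    (not_selects e0 hO) p hp hc
  have heq : ∀ e, F e = F e0 := by
    intro e
    funext w
    exact hFam (Sum.inr (e, e0)) (fun i _ => w i) (fun i => rfl)
  refine ⟨F e0, fun l x hx => ?_, hcyc e0⟩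
  have h1 := hFam (Sum.inl l) (fun i e => if h : (e : ℕ) < σ.ar l then x i ⟨e, h⟩ else y0)
    (fun i => by
      change 𝕐 l _
      have e : (fun a : Fin (σ.ar l) => if h : ((Fin.castLE (hle l) a : Fin N) : ℕ) < σ.ar l then
          x i ⟨(Fin.castLE (hle l) a : Fin N), h⟩ else y0) = x i := by
        funext a
        exact dif_pos a.2
      rw [e]
      exact hx i)
  have h2 : 𝕐 l (fun a : Fin (σ.ar l) => F (Fin.castLE (hle l) a) (fun i =>
    if h : ((Fin.castLE (hle l) a : Fin N) : ℕ) < σ.ar l then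
      x i ⟨(Fin.castLE (hle l) a : Fin N), h⟩ else y0)) := h1
  have e : (fun a : Fin (σ.ar l) => F (Fin.castLE (hle l) a) (fun i =>
      if h : ((Fin.castLE (hle l) a : Fin N) : ℕ) < σ.ar l then
        x i ⟨(Fin.castLE (hle l) a : Fin N), h⟩ else y0)) =
      fun k => F e0 (fun i => x i k) := by
    funext a
    rw [heq]
    refine congrArg (F e0) ?_
    funext i
    exact dif_pos a.2
  rw [e] at h2
  exact h2

end Pool.Agent.H63.EQM
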